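import Mathlib

/-!
# Three colours for the edges outside a spanning tree

`par` and `dep` are the parent function and the depth of a rooted spanning tree. If at least two
edges of `S` cross the set of descendants of every vertex `v ≠ r` then `S` has a colouring with
three colours such that edges of two different colours cross the set of descendants of every such
vertex.
-/

set_option autoImplicit false

namespace Pool.Agent.T6.H40.CC

open Finset

variable {V E : Type*}

/-- `x` is a descendant of `v`, for the parent function `par` -/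
def Desc (par : V → V) (v x : V) : Prop := ∃ n : ℕ, par^[n] x = v

/-- exactly one end of the edge `e` is a descendant of `v` -/
def Cross (par : V → V) (a b : E → V) (v : V) (e : E) : Prop :=
  ¬ (Desc par v (a e) ↔ Desc par v (b e))

lemma desc_refl (par : V → V) (v : V) : Desc par v v := ⟨0, rfl⟩

lemma desc_trans {par : V → V} {u v w : V} (h1 : Desc par u v) (h2 : Desc par v w) :
    Desc par u w := by
  obtain ⟨m, hm⟩ := h1
  obtain ⟨n, hn⟩ := h2
  exact ⟨m + n, by rw [Function.iterate_add_apply, hn, hm]⟩

lemma desc_total {par : V → V} {u v x : V} (h1 : Desc par u x) (h2 : Desc par v x) :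
    Desc par u v ∨ Desc par v u := by
  obtain ⟨m, hm⟩ := h1
  obtain ⟨n, hn⟩ := h2
  rcases le_total m n with h | h
  · right
    refine ⟨n - m, ?_⟩
    rw [← hm, ← Function.iterate_add_apply, Nat.sub_add_cancel h, hn]
  · left
    refine ⟨m - n, ?_⟩
    rw [← hn, ← Function.iterate_add_apply, Nat.sub_add_cancel h, hm]

section tree

variable {r : V} {par : V → V} {dep : V → ℕ} (hr : par r = r)
  (hdep : ∀ v, v ≠ r → dep (par v) < dep v)

include hr hdep

lemma iter_dep (n : ℕ) : ∀ w, par^[n] w = w ∨ dep (par^[n] w) < dep w := by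
  induction n with
  | zero => exact fun w => Or.inl rfl
  | succ n ih =>
    intro w
    rw [Function.iterate_succ_apply]
    by_cases hw : w = r
    · rw [hw, hr]
      exact ih r
    · have h1 := hdep w hw
      rcases ih (par w) with h | h
      · right
        rw [h]
        exact h1
      · right
        exact h.trans h1

lemma desc_dep {v w : V} (h : Desc par v w) : v = w ∨ dep v < dep w := by
  obtain ⟨n, hn⟩ := h
  rcases iter_dep hr hdep n w with h | h
  · left
    rw [← hn, h]
  · right
    rw [← hn]
    exact h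

omit hr in
lemma desc_root : ∀ (m : ℕ) (x : V), dep x = m → Desc par r x := by
  intro m
  induction m using Nat.strong_induction_on with
  | _ m ih =>
    intro x hx
    by_cases h : x = r
    · rw [h]
      exact desc_refl par r
    · obtain ⟨n, hn⟩ := ih (dep (par x)) (hx ▸ hdep x h) (par x) rfl
      exact ⟨n + 1, by rw [Function.iterate_succ_apply, hn]⟩

end tree

open Classical in
/-- the depth of the lowest common ancestor of the ends of `e` -/
noncomputable def top [Fintype V] (par : V → V) (dep : V → ℕ) (a b : E → V) (e : E) : ℕ :=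
  (univ.filter fun z => Desc par z (a e) ∧ Desc par z (b e)).sup dep

lemma top_comm [Fintype V] (par : V → V) (dep : V → ℕ) (a b : E → V) (e : E) :
    top par dep a b e = top par dep b a e := by
  unfold top
  congr 1
  ext z
  simp only [mem_filter, mem_univ, true_and, and_comm]

section tree2

variable [Fintype V] {r : V} {par : V → V} {dep : V → ℕ} (hr : par r = r)
  (hdep : ∀ v, v ≠ r → dep (par v) < dep v)

include hr hdep

lemma desc_iff (a b : E → V) {v : V} {e : E} (h : Desc par v (a e)) :
    Desc par v (b e) ↔ dep v ≤ top par dep a b e := by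
  classical
  constructor
  · intro h2
    unfold top
    exact le_sup (f := dep) (mem_filter.2 ⟨mem_univ _, h, h2⟩)
  · intro h2
    have hne : (univ.filter fun z => Desc par z (a e) ∧ Desc par z (b e)).Nonempty :=
      ⟨r, mem_filter.2 ⟨mem_univ _, desc_root hdep _ _ rfl, desc_root hdep _ _ rfl⟩⟩
    obtain ⟨z, hz, hz2⟩ := exists_mem_eq_sup _ hne dep
    obtain ⟨-, hza, hzb⟩ := mem_filter.1 hz
    have h3 : dep v ≤ dep z := by
      rw [← hz2]
      unfold top at h2
      convert h2
    rcases desc_total h hza with h4 | h4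
    · exact desc_trans h4 hzb
    · rcases desc_dep hr hdep h4 with h5 | h5
      · rw [← h5]
        exact hzb
      · omega

lemma cross_iff (a b : E → V) {v : V} {e : E} (h : Desc par v (a e)) :
    Cross par a b v e ↔ top par dep a b e < dep v := by
  unfold Cross
  rw [desc_iff hr hdep a b h, not_iff]
  constructor
  · intro h2
    by_contra h3
    exact (h2.2 (not_lt.1 h3)) h
  · intro h2
    exact ⟨fun h3 => absurd h h3, fun h3 => absurd h3 (not_le.2 h2)⟩

omit [Fintype V] hr hdep in
lemma cross_comm (a b : E → V) (v : V) (e : E) : Cross par a b v e ↔ Cross par b a v e :=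
  not_congr iff_comm

lemma lt_of_cross (a b : E → V) {v : V} {e : E} (h : Cross par a b v e) :
    top par dep a b e < dep v := by
  by_cases h1 : Desc par v (a e)
  · exact (cross_iff hr hdep a b h1).1 h
  · have h2 : Desc par v (b e) := by
      by_contra h2
      exact h ⟨fun h3 => absurd h3 h1, fun h3 => absurd h3 h2⟩
    rw [top_comm]
    exact (cross_iff hr hdep b a h2).1 ((cross_comm a b v e).1 h)

lemma cross_up (a b : E → V) {v w : V} {e : E} (h : Cross par a b v e) (hwv : Desc par w v)
    (hw : top par dep a b e < dep w) : Cross par a b w e := by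
  by_cases h1 : Desc par v (a e)
  · exact (cross_iff hr hdep a b (desc_trans hwv h1)).2 hw
  · have h2 : Desc par v (b e) := by
      by_contra h2
      exact h ⟨fun h3 => absurd h3 h1, fun h3 => absurd h3 h2⟩
    rw [top_comm] at hw
    exact (cross_comm a b w e).2 ((cross_iff hr hdep b a (desc_trans hwv h2)).2 hw)

/-- on one leg of `q` all tree edges that see exactly one earlier edge see the same one -/
lemma leg (a b : E → V) (A : Finset E) (q : E)
    (hA : ∀ x ∈ A, top par dep a b x ≤ top par dep a b q) (c : E → Fin 3) (y : V) :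
    ∃ d : Fin 3, ∀ v, Desc par v y → Cross par a b v q → ∀ p ∈ A,
      (∀ p' ∈ A, Cross par a b v p' → p' = p) → Cross par a b v p → c p = d := by
  by_cases h : ∃ v p, Desc par v y ∧ Cross par a b v q ∧ p ∈ A ∧
      (∀ p' ∈ A, Cross par a b v p' → p' = p) ∧ Cross par a b v p
  · obtain ⟨v0, p0, h1, h2, h3, h4, h5⟩ := h
    refine ⟨c p0, fun v hv hq p hp hu hc => ?_⟩
    have hpp : p0 = p := by
      rcases desc_total hv h1 with h6 | h6
      · exact hu p0 h3 (cross_up hr hdep a b h5 h6
          ((hA p0 h3).trans_lt (lt_of_cross hr hdep a b hq)))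
      · exact (h4 p hp (cross_up hr hdep a b hc h6
          ((hA p hp).trans_lt (lt_of_cross hr hdep a b h2)))).symm
    rw [hpp]
  · refine ⟨0, fun v hv hq p hp hu hc => ?_⟩
    exact absurd ⟨v, p, hv, hq, hp, hu, hc⟩ h

lemma col_aux [DecidableEq E] (a b : E → V) (S : Finset E) : ∃ c : E → Fin 3, ∀ v,
    (∃ p ∈ S, ∃ q ∈ S, p ≠ q ∧ Cross par a b v p ∧ Cross par a b v q) →
      ∃ p ∈ S, ∃ q ∈ S, Cross par a b v p ∧ Cross par a b v q ∧ c p ≠ c q := by
  classical
  induction S using Finset.induction_on_max_value (top par dep a b) with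
  | empty => exact ⟨fun _ => 0, fun v ⟨p, hp, _⟩ => absurd hp (notMem_empty p)⟩
  | insert q A hq hA ih =>
    obtain ⟨c, hc⟩ := ih
    obtain ⟨d1, hd1⟩ := leg hr hdep a b A q hA c (a q)
    obtain ⟨d2, hd2⟩ := leg hr hdep a b A q hA c (b q)
    obtain ⟨d, hda, hdb⟩ : ∃ d : Fin 3, d ≠ d1 ∧ d ≠ d2 := by
      have h3 : ∀ d1 d2 : Fin 3, ∃ d : Fin 3, d ≠ d1 ∧ d ≠ d2 := by decide
      exact h3 d1 d2
    refine ⟨Function.update c q d, fun v hv => ?_⟩
    have hne : ∀ p ∈ A, p ≠ q := fun p hp h => hq (h ▸ hp)
    by_cases h2 : ∃ p ∈ A, ∃ q' ∈ A, p ≠ q' ∧ Cross par a b v p ∧ Cross par a b v q'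
    · obtain ⟨p, hp, q', hq', h3, h4, h5⟩ := hc v h2
      refine ⟨p, mem_insert_of_mem hp, q', mem_insert_of_mem hq', h3, h4, ?_⟩
      rw [Function.update_of_ne (hne p hp), Function.update_of_ne (hne q' hq')]
      exact h5
    · have key : ∀ p ∈ A, Cross par a b v p → Cross par a b v q →
          ∃ p ∈ insert q A, ∃ q' ∈ insert q A, Cross par a b v p ∧ Cross par a b v q' ∧
            Function.update c q d p ≠ Function.update c q d q' := by
        intro p hp hcp hcq
        refine ⟨q, mem_insert_self _ _, p, mem_insert_of_mem hp, hcq, hcp, ?_⟩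
        rw [Function.update_self, Function.update_of_ne (hne p hp)]
        have hu : ∀ p' ∈ A, Cross par a b v p' → p' = p := by
          intro p' hp' hcp'
          by_contra h
          exact h2 ⟨p', hp', p, hp, h, hcp', hcp⟩
        have hleg : Desc par v (a q) ∨ Desc par v (b q) := by
          by_contra h
          push Not at h
          exact hcq ⟨fun h3 => absurd h3 h.1, fun h3 => absurd h3 h.2⟩
        rcases hleg with h3 | h3
        · rw [hd1 v h3 hcq p hp hu hcp]
          exact hda
        · rw [hd2 v h3 hcq p hp hu hcp]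
          exact hdb
      obtain ⟨p1, hp1, p2, hp2, h12, hc1, hc2⟩ := hv
      rcases mem_insert.1 hp1 with h3 | h3
      · rcases mem_insert.1 hp2 with h4 | h4
        · exact absurd (h3.trans h4.symm) h12
        · exact key p2 h4 hc2 (h3 ▸ hc1)
      · rcases mem_insert.1 hp2 with h4 | h4
        · exact key p1 h3 hc1 (h4 ▸ hc2)
        · exact absurd ⟨p1, h3, p2, h4, h12, hc1, hc2⟩ h2

open Classical in
/-- **Three colours.** -/
theorem col3 (a b : E → V) (S : Finset E)
    (h2 : ∀ v, v ≠ r → 2 ≤ (S.filter fun e => Cross par a b v e).card) :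
    ∃ c : E → Fin 3, ∀ v, v ≠ r → ∃ p ∈ S, ∃ q ∈ S,
      Cross par a b v p ∧ Cross par a b v q ∧ c p ≠ c q := by
  obtain ⟨c, hc⟩ := col_aux hr hdep a b S
  refine ⟨c, fun v hv => hc v ?_⟩
  obtain ⟨p, hp, q, hq, hpq⟩ := one_lt_card.1 (h2 v hv)
  obtain ⟨hp1, hp2⟩ := mem_filter.1 hp
  obtain ⟨hq1, hq2⟩ := mem_filter.1 hq
  exact ⟨p, hp1, q, hq1, hpq, hp2, hq2⟩

end tree2

end Pool.Agent.T6.H40.CC
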