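import Pool.Agent.T6.H40.CC.Col
import Pool.Agent.R483.TP.Arb

/-!
# Courteous colourings of 3-edge-connected graphs with nine colours
-/

set_option autoImplicit false

namespace Pool.Agent.T6.H40.CC

open Finset

variable {V E : Type*}

/-- `x` and `y` are joined by an edge of `K` -/
def Joined (a b : E → V) (K : Finset E) (x y : V) : Prop :=
  ∃ e ∈ K, (a e = x ∧ b e = y) ∨ (a e = y ∧ b e = x)

/-- the graph with the edges of `K` is connected -/
def Connected (a b : E → V) (K : Finset E) : Prop :=
  ∀ u v : V, Relation.ReflTransGen (Joined a b K) u v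

open Classical in
/-- the graph with the edges of `K` stays connected after removing fewer than `k` edges -/
def EdgeConnected (a b : E → V) (k : ℕ) (K : Finset E) : Prop :=
  ∀ R : Finset E, R.card < k → Connected a b (K \ R)

lemma joined_symm (a b : E → V) (K : Finset E) {x y : V} (h : Joined a b K x y) :
    Joined a b K y x := by
  obtain ⟨e, he, h | h⟩ := h
  · exact ⟨e, he, Or.inr h⟩
  · exact ⟨e, he, Or.inl h⟩

lemma conn_symm (a b : E → V) (K : Finset E) {x y : V}
    (h : Relation.ReflTransGen (Joined a b K) x y) :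
    Relation.ReflTransGen (Joined a b K) y x := by
  induction h with
  | refl => exact Relation.ReflTransGen.refl
  | tail _ h2 ih => exact Relation.ReflTransGen.head (joined_symm a b K h2) ih

lemma cut_ge (a b : E → V) {k : ℕ} {K : Finset E} (h : EdgeConnected a b k K) {P : V → Prop}
    {x y : V} (hx : P x) (hy : ¬ P y) (C : Finset E)
    (hC : ∀ e ∈ K, ¬ (P (a e) ↔ P (b e)) → e ∈ C) : k ≤ C.card := by
  classical
  by_contra hlt
  have h1 := h _ (not_le.1 hlt) x y
  have h2 : ∀ z, Relation.ReflTransGen (Joined a b (K \ C)) x z → P z := by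
    intro z hz
    induction hz with
    | refl => exact hx
    | tail _ h3 ih =>
      obtain ⟨e, he, h4⟩ := h3
      rw [mem_sdiff] at he
      have h5 : P (a e) ↔ P (b e) := by
        by_contra h5
        exact he.2 (hC e he.1 h5)
      rcases h4 with ⟨h6, h7⟩ | ⟨h6, h7⟩
      · rw [← h7]
        exact h5.1 (h6 ▸ ih)
      · rw [← h6]
        exact h5.2 (h7 ▸ ih)
  refine hy (h2 y ?_)
  convert h1

section tree

variable {A : Type*} (tl hd : A → V) (r : V)

open Pool.Agent.R483.TP in
lemma tree_of_reach (F : Finset A) (h : ∀ v, Reach tl hd r F v) :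
    ∃ (par : V → V) (dep : V → ℕ), par r = r ∧ (∀ v, v ≠ r → dep (par v) < dep v) ∧
      ∀ v, v ≠ r → ∃ x ∈ F, tl x = v ∧ hd x = par v := by
  classical
  let R : ℕ → V → Prop := fun n => Nat.rec (fun v => v = r)
    (fun _ ih v => ∃ w, (∃ x ∈ F, tl x = v ∧ hd x = w) ∧ ih w) n
  have hR0 : ∀ v, R 0 v ↔ v = r := fun v => Iff.rfl
  have hRs : ∀ n v, R (n + 1) v ↔ ∃ w, (∃ x ∈ F, tl x = v ∧ hd x = w) ∧ R n w :=
    fun n v => Iff.rfl
  have hex : ∀ v, ∃ n, R n v := by
    intro v
    have h1 := h v
    unfold Reach at h1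
    induction h1 using Relation.ReflTransGen.head_induction_on with
    | refl => exact ⟨0, (hR0 _).2 rfl⟩
    | head h2 _ ih =>
      obtain ⟨n, hn⟩ := ih
      exact ⟨n + 1, (hRs _ _).2 ⟨_, h2, hn⟩⟩
  let dep : V → ℕ := fun v => sInf {n | R n v}
  have hst : ∀ v, v ≠ r → ∃ w, (∃ x ∈ F, tl x = v ∧ hd x = w) ∧ dep w < dep v := by
    intro v hv
    have h1 : R (dep v) v := Nat.sInf_mem (s := {n | R n v}) (hex v)
    obtain ⟨m, hm⟩ : ∃ m, dep v = m + 1 := by
      refine Nat.exists_eq_succ_of_ne_zero fun h0 => hv ?_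
      rw [h0] at h1
      exact (hR0 v).1 h1
    rw [hm] at h1
    obtain ⟨w, hw1, hw2⟩ := (hRs m v).1 h1
    refine ⟨w, hw1, ?_⟩
    have h3 : dep w ≤ m := Nat.sInf_le (s := {n | R n w}) hw2
    omega
  choose! par hpar using hst
  refine ⟨fun v => if v = r then r else par v, dep, by simp, fun v hv => ?_, fun v hv => ?_⟩
  · beta_reduce
    rw [if_neg hv]
    exact (hpar v hv).2
  · beta_reduce
    rw [if_neg hv]
    exact (hpar v hv).1

end tree

section two

variable {r : V} {par : V → V} {dep : V → ℕ} (hr : par r = r)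
  (hdep : ∀ v, v ≠ r → dep (par v) < dep v)

include hr in
lemma not_desc_root {v : V} (hv : v ≠ r) : ¬ Desc par v r := by
  rintro ⟨n, hn⟩
  apply hv
  rw [← hn]
  exact Function.iterate_fixed hr n

lemma desc_par {v w : V} (h : Desc par v (par w)) : Desc par v w := by
  obtain ⟨n, hn⟩ := h
  exact ⟨n + 1, by rw [Function.iterate_succ_apply, hn]⟩

lemma desc_par' {v w : V} (h : Desc par v w) (hne : w ≠ v) : Desc par v (par w) := by
  obtain ⟨n, hn⟩ := h
  cases n with
  | zero => exact absurd hn hne
  | succ n => exact ⟨n, by rw [← Function.iterate_succ_apply, hn]⟩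

include hr hdep in
/-- the tree edges `te v` from `v ≠ r` to the parent and one more edge across every cut -/
lemma two_conn (a b : E → V) (te : V → E) (K : Finset E)
    (hte : ∀ v, v ≠ r → (a (te v) = v ∧ b (te v) = par v) ∨ (a (te v) = par v ∧ b (te v) = v))
    (hK : ∀ v, v ≠ r → te v ∈ K)
    (hx : ∀ v, v ≠ r → ∃ e ∈ K, (∀ w, w ≠ r → te w ≠ e) ∧ Cross par a b v e) :
    EdgeConnected a b 2 K := by
  classical
  intro R hR
  have hR1 : ∀ e ∈ R, ∀ f ∈ R, e = f := card_le_one.1 (by omega)
  -- it is enough to reach the root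
  suffices hs : ∀ z, Relation.ReflTransGen (Joined a b (K \ R)) z r by
    intro u v
    exact (hs u).trans (conn_symm a b _ (hs v))
  have hj : ∀ v, v ≠ r → te v ∉ R → Joined a b (K \ R) v (par v) := by
    intro v hv hvR
    refine ⟨te v, mem_sdiff.2 ⟨hK v hv, hvR⟩, ?_⟩
    rcases hte v hv with h | h
    · exact Or.inl h
    · exact Or.inr h
  by_cases hall : ∀ v, v ≠ r → te v ∉ R
  · have h1 : ∀ (m : ℕ) (z : V), dep z = m →
        Relation.ReflTransGen (Joined a b (K \ R)) z r := by
      intro m
      induction m using Nat.strong_induction_on with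
      | _ m ih =>
        intro z hz
        by_cases hzr : z = r
        · rw [hzr]
        · exact Relation.ReflTransGen.head (hj z hzr (hall z hzr))
            (ih _ (hz ▸ hdep z hzr) _ rfl)
    exact fun z => h1 _ z rfl
  · push Not at hall
    obtain ⟨v0, hv0, hv0R⟩ := hall
    have hoth : ∀ w, w ≠ r → w ≠ v0 → te w ∉ R := by
      intro w hw hwv hwR
      have h1 : te w = te v0 := hR1 _ hwR _ hv0R
      have h2 := hte w hw
      rw [h1] at h2
      have hd1 := hdep w hw
      have hd2 := hdep v0 hv0
      rcases h2 with ⟨h3, h4⟩ | ⟨h3, h4⟩ <;> rcases hte v0 hv0 with ⟨h5, h6⟩ | ⟨h5, h6⟩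
      · exact hwv (h3.symm.trans h5)
      · rw [h3] at h5
        rw [h4] at h6
        rw [h6] at hd1
        rw [← h5] at hd2
        omega
      · rw [h4] at h6
        rw [h3] at h5
        rw [h5] at hd1
        rw [← h6] at hd2
        omega
      · exact hwv (h4.symm.trans h6)
    have hin : ∀ (m : ℕ) (z : V), dep z = m → Desc par v0 z →
        Relation.ReflTransGen (Joined a b (K \ R)) z v0 := by
      intro m
      induction m using Nat.strong_induction_on with
      | _ m ih =>
        intro z hz hzd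
        by_cases hzv : z = v0
        · rw [hzv]
        · have hzr : z ≠ r := by
            rintro rfl
            exact not_desc_root hr hv0 hzd
          exact Relation.ReflTransGen.head (hj z hzr (hoth z hzr hzv))
            (ih _ (hz ▸ hdep z hzr) _ rfl (desc_par' hzd hzv))
    have hout : ∀ (m : ℕ) (z : V), dep z = m → ¬ Desc par v0 z →
        Relation.ReflTransGen (Joined a b (K \ R)) z r := by
      intro m
      induction m using Nat.strong_induction_on with
      | _ m ih =>
        intro z hz hzd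
        by_cases hzr : z = r
        · rw [hzr]
        · have hzv : z ≠ v0 := by
            rintro rfl
            exact hzd (desc_refl par z)
          exact Relation.ReflTransGen.head (hj z hzr (hoth z hzr hzv))
            (ih _ (hz ▸ hdep z hzr) _ rfl fun h => hzd (desc_par h))
    obtain ⟨e, heK, heT, hec⟩ := hx v0 hv0
    have heR : e ∉ R := fun h => heT v0 hv0 (hR1 _ hv0R _ h)
    have hvr : Relation.ReflTransGen (Joined a b (K \ R)) v0 r := by
      by_cases h1 : Desc par v0 (a e)
      · have h2 : ¬ Desc par v0 (b e) := fun h2 => hec ⟨fun _ => h2, fun _ => h1⟩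
        exact (conn_symm a b _ (hin _ _ rfl h1)).trans (Relation.ReflTransGen.head
          ⟨e, mem_sdiff.2 ⟨heK, heR⟩, Or.inl ⟨rfl, rfl⟩⟩ (hout _ _ rfl h2))
      · have h2 : Desc par v0 (b e) := by
          by_contra h2
          exact hec ⟨fun h => absurd h h1, fun h => absurd h h2⟩
        exact (conn_symm a b _ (hin _ _ rfl h2)).trans (Relation.ReflTransGen.head
          ⟨e, mem_sdiff.2 ⟨heK, heR⟩, Or.inr ⟨rfl, rfl⟩⟩ (hout _ _ rfl h1))
    intro z
    by_cases h1 : Desc par v0 z
    · exact (hin _ _ rfl h1).trans hvr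
    · exact hout _ _ rfl h1

end two

section final

variable [Fintype V] [Fintype E]

open Classical in
/-- three colours for the edges outside the tree given by a set `F` of arcs that leads every vertex
to the root -/
lemma one_tree (a b : E → V) (r : V) (h3 : EdgeConnected a b 3 univ) (F : Finset (E × Bool))
    (hF : ∀ v, Pool.Agent.R483.TP.Reach (fun x : E × Bool => if x.2 then a x.1 else b x.1)
      (fun x : E × Bool => if x.2 then b x.1 else a x.1) r F v) :
    ∃ (T : Finset E) (c : E → Fin 3), (∀ e ∈ T, ∃ s : Bool, (e, s) ∈ F) ∧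
      ∀ (j : Fin 3) (K : Finset E), T ⊆ K → (∀ e, e ∉ T → c e ≠ j → e ∈ K) →
        EdgeConnected a b 2 K := by
  obtain ⟨par, dep, hr, hdep, hx⟩ := tree_of_reach _ _ r F hF
  choose x hxF hxt hxh using hx
  by_cases hVr : ∃ v : V, v ≠ r
  swap
  · push Not at hVr
    refine ⟨∅, fun _ => 0, fun e he => absurd he (notMem_empty e), fun j K _ _ R _ u v => ?_⟩
    rw [hVr u, hVr v]
  obtain ⟨v1, hv1⟩ := hVr
  let te : V → E := fun v => if h : v ≠ r then (x v h).1 else (x v1 hv1).1
  have hte0 : ∀ v (h : v ≠ r), te v = (x v h).1 := fun v h => dif_pos h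
  have hte : ∀ v, v ≠ r → (a (te v) = v ∧ b (te v) = par v) ∨
      (a (te v) = par v ∧ b (te v) = v) := by
    intro v hv
    have h1 := hxt v hv
    have h2 := hxh v hv
    rw [hte0 v hv]
    cases hs : (x v hv).2 with
    | true =>
      left
      simp only [hs, if_true] at h1 h2
      exact ⟨h1, h2⟩
    | false =>
      right
      simp only [hs, Bool.false_eq_true, if_false] at h1 h2
      exact ⟨h2, h1⟩
  let T : Finset E := univ.filter fun e => ∃ v, v ≠ r ∧ te v = e
  have hTm : ∀ e, e ∈ T ↔ ∃ v, v ≠ r ∧ te v = e := fun e => by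
    simp only [T, mem_filter, mem_univ, true_and]
  have h2 : ∀ v, v ≠ r → 2 ≤ ((univ \ T).filter fun e => Cross par a b v e).card := by
    intro v hv
    have h4 := cut_ge a b h3 (P := Desc par v) (desc_refl par v) (not_desc_root hr hv)
        (insert (te v) ((univ \ T).filter fun e => Cross par a b v e)) (by
      intro e _ he2
      by_cases heT : e ∈ T
      · obtain ⟨w, hw, hwe⟩ := (hTm e).1 heT
        have hwv : w = v := by
          by_contra hne
          apply he2
          rw [← hwe]
          rcases hte w hw with ⟨h6, h7⟩ | ⟨h6, h7⟩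
          · rw [h6, h7]
            exact ⟨fun h => desc_par' h hne, desc_par⟩
          · rw [h6, h7]
            exact ⟨desc_par, fun h => desc_par' h hne⟩
        rw [← hwe, hwv]
        exact mem_insert_self _ _
      · exact mem_insert_of_mem (mem_filter.2 ⟨mem_sdiff.2 ⟨mem_univ _, heT⟩, he2⟩))
    have h7 := card_insert_le (te v) ((univ \ T).filter fun e => Cross par a b v e)
    omega
  obtain ⟨c, hc⟩ := col3 hr hdep a b (univ \ T) h2
  refine ⟨T, c, ?_, ?_⟩
  · intro e he
    obtain ⟨w, hw, hwe⟩ := (hTm e).1 he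
    refine ⟨(x w hw).2, ?_⟩
    rw [← hwe, hte0 w hw]
    exact hxF w hw
  · intro j K hTK hK
    refine two_conn hr hdep a b te K hte (fun v hv => hTK ((hTm _).2 ⟨v, hv, rfl⟩)) ?_
    intro v hv
    obtain ⟨p, hp, q, hq, hp2, hq2, hpq⟩ := hc v hv
    have hpT := (mem_sdiff.1 hp).2
    have hqT := (mem_sdiff.1 hq).2
    by_cases hj : c p = j
    · refine ⟨q, hK q hqT fun h => hpq (hj.trans h.symm), fun w hw h => ?_, hq2⟩
      exact hqT ((hTm q).2 ⟨w, hw, h⟩)
    · refine ⟨p, hK p hpT hj, fun w hw h => ?_, hp2⟩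
      exact hpT ((hTm p).2 ⟨w, hw, h⟩)

open Classical in
/-- **Nine colours.** -/
theorem nine (a b : E → V) (h3 : EdgeConnected a b 3 univ) :
    ∃ c : E → Fin 9, ∀ i, EdgeConnected a b 2 (univ.filter fun e => c e ≠ i) := by
  by_cases hV : Nonempty V
  swap
  · exact ⟨fun _ => 0, fun i R _ u => absurd ⟨u⟩ hV⟩
  obtain ⟨r⟩ := hV
  obtain ⟨F, -, hdis, hreach⟩ := Pool.Agent.R483.TP.edmonds
    (fun x : E × Bool => if x.2 then a x.1 else b x.1)
    (fun x : E × Bool => if x.2 then b x.1 else a x.1) r 3 univ (by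
      intro X hX hrX
      obtain ⟨y, hy⟩ := hX
      unfold Pool.Agent.R483.TP.out
      refine (cut_ge a b h3 (P := fun z => z ∈ X) hy hrX (Finset.image Prod.fst _) ?_).trans
        card_image_le
      intro e _ he2
      by_cases h1 : a e ∈ X
      · have h2 : b e ∉ X := fun h2 => he2 ⟨fun _ => h2, fun _ => h1⟩
        refine mem_image.2 ⟨(e, true), mem_filter.2 ⟨mem_univ _, ?_⟩, rfl⟩
        simp [h1, h2]
      · have h2 : b e ∈ X := by
          by_contra h2
          exact he2 ⟨fun h => absurd h h1, fun h => absurd h h2⟩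
        refine mem_image.2 ⟨(e, false), mem_filter.2 ⟨mem_univ _, ?_⟩, rfl⟩
        simp [h1, h2])
  have hT := fun i => one_tree a b r h3 (F i) (hreach i)
  choose T c hTF hTc using hT
  have hmiss : ∀ e, ∃ i, e ∉ T i := by
    intro e
    by_contra hall
    push Not at hall
    have h1 := fun i => hTF i e (hall i)
    choose s hs using h1
    obtain ⟨i, j, hij, hsij⟩ : ∃ i j : Fin 3, i ≠ j ∧ s i = s j := by
      by_contra hno
      push Not at hno
      have : Function.Injective s := fun i j h => by
        by_contra hne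
        exact hno i j hne h
      have h4 := Fintype.card_le_of_injective s this
      simp at h4
    have h5 := Finset.disjoint_left.1 (hdis i j hij) (hs i)
    rw [hsij] at h5
    exact h5 (hs j)
  choose m hm using hmiss
  refine ⟨fun e => finProdFinEquiv (m e, c (m e) e), fun k => ?_⟩
  obtain ⟨⟨i, j⟩, hk⟩ := (finProdFinEquiv (m := 3) (n := 3)).surjective k
  refine hTc i j _ ?_ ?_
  · intro e he
    refine mem_filter.2 ⟨mem_univ _, fun h => ?_⟩
    rw [← hk] at h
    have h2 := (Prod.ext_iff.1 (finProdFinEquiv.injective h)).1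
    exact hm e (by rw [show m e = i from h2]; exact he)
  · intro e he hc
    refine mem_filter.2 ⟨mem_univ _, fun h => ?_⟩
    rw [← hk] at h
    have h2 := Prod.ext_iff.1 (finProdFinEquiv.injective h)
    have h3 : m e = i := h2.1
    have h4 : c (m e) e = j := h2.2
    rw [h3] at h4
    exact hc h4

end final

end Pool.Agent.T6.H40.CC
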